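import Pool.Agent.H25.MM.R719.TC.Tup
import Pool.Agent.H25.MM.TH650.GB.CB
import Pool.Agent.H25.MM.R719.LG.OstC

/-!
# Polynomials dominating coprime polynomials on the torus
-/

set_option autoImplicit false

open MeasureTheory Filter MvPolynomial

namespace Pool.Agent.R719.TC

open Pool.Agent.H261R2.CM Pool.Agent.TH845.KN

noncomputable section

variable {k r : ℕ}

/-- every common irreducible factor has measure one -/
def NCF {ι : Type} (G : ι → MvPolynomial (Fin k) ℤ) : Prop :=
  ∀ h : MvPolynomial (Fin k) ℤ, Irreducible h → (∀ i, h ∣ G i) → mM h = 1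

/-- the class of the dominating polynomials -/
def Dom (c : ℝ) : Set ℝ :=
  {x : ℝ | ∃ k : ℕ, 1 ≤ k ∧ ∃ F : MvPolynomial (Fin k) ℤ, F ≠ 0 ∧ ∃ (r : ℕ)
    (G : Fin r → MvPolynomial (Fin k) ℤ), NCF G ∧
    (∀ t : Fin k → ℝ, ∑ i, ‖tv (G i) t‖ ≤ c * ‖tv F t‖) ∧ x = mM F}

theorem hgt_le {F : MvPolynomial (Fin k) ℤ} (hF : F ≠ 0) (G : Fin r → MvPolynomial (Fin k) ℤ)
    (c : ℝ) (h : ∀ t : Fin k → ℝ, ∑ i, ‖tv (G i) t‖ ≤ c * ‖tv F t‖) :
    hgt F G ≤ Real.log (mM F) + Real.log (max 1 c) := by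
  have hc : 0 < max 1 c := lt_max_of_lt_left one_pos
  have h1 : Real.log (mM F) + Real.log (max 1 c) =
      ∫ t in Set.Icc (0 : Fin k → ℝ) 1, (Real.log ‖tv F t‖ + Real.log (max 1 c)) := by
    rw [integral_add (F_integrable hF) (integrable_const _), ← log_mM]
    congr 1
    rw [integral_const]
    simp [measureReal_def]
  rw [h1]
  unfold hgt
  refine integral_mono_ae (int_hgt hF G) ((F_integrable hF).add (integrable_const _)) ?_
  filter_upwards [F_zero_null hF] with t ht
  have h3 : 0 < ‖tv F t‖ := norm_pos_iff.mpr ht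
  rw [← Real.log_mul h3.ne' hc.ne']
  refine Real.log_le_log (lt_max_of_lt_left h3) (max_le ?_ ?_)
  · nlinarith [le_max_left 1 c]
  · refine (h t).trans ?_
    rw [mul_comm]
    exact mul_le_mul_of_nonneg_left (le_max_right _ _) h3.le

theorem Dom_mem {c x : ℝ} (hx : x ∈ Dom c) : x ∈ LL (Real.log x + Real.log (max 1 c)) := by
  obtain ⟨k, hk, F, hF, r, G, hG, hle, rfl⟩ := hx
  refine LL_mono (hgt_le hF G c hle) (mem_LL hk F hF G ?_)
  intro h hi _ hall
  exact hG h hi hall

theorem BC_Dom (c : ℝ) : BC (Dom c) := by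
  intro B
  refine ⟨Real.log B + Real.log (max 1 c), ?_⟩
  rintro x ⟨hx, hB⟩
  have h1 := Dom_mem hx
  have h2 : 1 ≤ x := one_le_of_LL h1
  refine LL_mono ?_ h1
  have := Real.log_le_log (by linarith) (le_of_lt hB)
  linarith

/-- arbitrary finite index types -/
theorem Dom_of {ι : Type} [Fintype ι] (hk : 1 ≤ k) {F : MvPolynomial (Fin k) ℤ} (hF : F ≠ 0)
    (G : ι → MvPolynomial (Fin k) ℤ) (hG : NCF G) {c : ℝ}
    (h : ∀ t : Fin k → ℝ, ∑ i, ‖tv (G i) t‖ ≤ c * ‖tv F t‖) : mM F ∈ Dom c := by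
  set e := (Fintype.equivFin ι).symm
  refine ⟨k, hk, F, hF, Fintype.card ι, fun i => G (e i), ?_, ?_, rfl⟩
  · intro q hq hall
    refine hG q hq fun i => ?_
    have := hall (e.symm i)
    simpa using this
  · intro t
    rw [e.sum_comp (fun i => ‖tv (G i) t‖)]
    exact h t

/-- the number of the dominated polynomials is bounded by the measure -/
theorem amgm {ι : Type} [Fintype ι] {F : MvPolynomial (Fin k) ℤ} (hF : F ≠ 0)
    (G : ι → MvPolynomial (Fin k) ℤ) (hG : ∀ i, G i ≠ 0) {c : ℝ} (hc : 0 < c)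
    (h : ∀ t : Fin k → ℝ, ∑ i, ‖tv (G i) t‖ ≤ c * ‖tv F t‖) :
    (Fintype.card ι : ℝ) ≤ c * mM F := by
  rcases isEmpty_or_nonempty ι with he | hne
  · have := one_le_mM F hF
    simp only [Fintype.card_eq_zero, Nat.cast_zero]
    positivity
  have hr : (0 : ℝ) < Fintype.card ι := by exact_mod_cast Fintype.card_pos
  have hM : 0 < mM F := lt_of_lt_of_le one_pos (one_le_mM F hF)
  have hall : ∀ᵐ t ∂(volume.restrict (Set.Icc (0 : Fin k → ℝ) 1)), ∀ i, tv (G i) t ≠ 0 :=
    ae_all_iff.2 fun i => F_zero_null (hG i)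
  have key : Real.log (Fintype.card ι) ≤ Real.log c + Real.log (mM F) := by
    have h1 : Real.log c + Real.log (mM F) =
        ∫ t in Set.Icc (0 : Fin k → ℝ) 1, (Real.log c + Real.log ‖tv F t‖) := by
      rw [integral_add (integrable_const _) (F_integrable hF), ← log_mM]
      congr 1
      rw [integral_const]
      simp [measureReal_def]
    have h2 : Real.log (Fintype.card ι) + ∑ i, (Fintype.card ι : ℝ)⁻¹ * Real.log (mM (G i)) =
        ∫ t in Set.Icc (0 : Fin k → ℝ) 1, (Real.log (Fintype.card ι) +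
          ∑ i, (Fintype.card ι : ℝ)⁻¹ * Real.log ‖tv (G i) t‖) := by
      rw [integral_add (integrable_const _)
        (integrable_finsetSum _ fun i _ => (F_integrable (hG i)).const_mul _),
        integral_finsetSum _ fun i _ => (F_integrable (hG i)).const_mul _]
      congr 1
      · rw [integral_const]
        simp [measureReal_def]
      · refine Finset.sum_congr rfl fun i _ => ?_
        rw [integral_const_mul, ← log_mM]
    have h3 : 0 ≤ ∑ i, (Fintype.card ι : ℝ)⁻¹ * Real.log (mM (G i)) :=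
      Finset.sum_nonneg fun i _ => mul_nonneg (by positivity)
        (Real.log_nonneg (one_le_mM _ (hG i)))
    have h4 : Real.log (Fintype.card ι) + ∑ i, (Fintype.card ι : ℝ)⁻¹ * Real.log (mM (G i)) ≤
        Real.log c + Real.log (mM F) := by
      rw [h1, h2]
      refine integral_mono_ae ((integrable_const _).add
        (integrable_finsetSum _ fun i _ => (F_integrable (hG i)).const_mul _))
        ((integrable_const _).add (F_integrable hF)) ?_
      filter_upwards [F_zero_null hF, hall] with t ht hgt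
      have h5 : 0 < ‖tv F t‖ := norm_pos_iff.mpr ht
      have h6 : ∀ i, 0 < ‖tv (G i) t‖ := fun i => norm_pos_iff.mpr (hgt i)
      have h7 := strictConcaveOn_log_Ioi.concaveOn.le_map_sum (t := Finset.univ)
        (w := fun _ : ι => (Fintype.card ι : ℝ)⁻¹) (p := fun i => ‖tv (G i) t‖)
        (fun i _ => by positivity) (by
          rw [Finset.sum_const, Finset.card_univ, nsmul_eq_mul]
          exact mul_inv_cancel₀ hr.ne') (fun i _ => h6 i)
      simp only [smul_eq_mul] at h7
      have h8 : 0 < ∑ i, ‖tv (G i) t‖ := Finset.sum_pos (fun i _ => h6 i) Finset.univ_nonempty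
      have h9 : Real.log (∑ i, (Fintype.card ι : ℝ)⁻¹ * ‖tv (G i) t‖) =
          Real.log (∑ i, ‖tv (G i) t‖) - Real.log (Fintype.card ι) := by
        rw [← Finset.mul_sum, Real.log_mul (inv_ne_zero hr.ne') h8.ne', Real.log_inv]
        ring
      have h10 : Real.log (∑ i, ‖tv (G i) t‖) ≤ Real.log c + Real.log ‖tv F t‖ := by
        rw [← Real.log_mul hc.ne' h5.ne']
        exact Real.log_le_log h8 (h t)
      linarith
    linarith
  rw [← Real.log_mul hc.ne' hM.ne'] at key
  exact (Real.log_le_log_iff hr (mul_pos hc hM)).1 key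

/-- sums of powers -/
theorem Dom_pow {ι : Type} [Fintype ι] (hk : 1 ≤ k) {F : MvPolynomial (Fin k) ℤ} (hF : F ≠ 0)
    (g : ι → MvPolynomial (Fin k) ℤ) (hG : NCF g) (m : ℕ) {c : ℝ}
    (h : ∀ t : Fin k → ℝ, ∑ i, ‖tv (g i) t‖ ^ m ≤ c * ‖tv F t‖) : mM F ∈ Dom c := by
  refine Dom_of hk hF (fun i => g i ^ m) ?_ ?_
  · intro q hq hall
    exact hG q hq fun i => hq.prime.dvd_of_dvd_pow (hall i)
  · intro t
    refine le_trans (le_of_eq (Finset.sum_congr rfl fun i _ => ?_)) (h t)
    rw [J.tv_eq, map_pow, norm_pow]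
    rfl

end

end Pool.Agent.R719.TC
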